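import Pool.Agent.Helper264.NT.NearR
import Pool.Agent.Y771.KF.MSP

/-!
# Values of `j`, `j'`, `j''` at all tuples near all points outside of a set of dimension `2 (n - 1)`

For `n`-tuples `z` of points of a number field in the upper half-plane the modular Schanuel conjecture with derivatives
and special points predicts that the numbers `j (z_l)`, `j' (z_l)`, `j'' (z_l)` are algebraically independent if the `z_l`
are not special and lie in distinct `GL_2 (ℚ)`-orbits. The starting file `NumberFieldPoints` bounds the number of the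
exceptional tuples of height at most `T` (for relations of bounded degree and height) and says nothing about the tuples
near a given point. Here there are no exceptional tuples near the points outside of a set `E` of dimension `2 (n - 1)`
(of dimension zero for `n = 1`). `E` contains the hyperplanes `y_1 = y_2`, `y_2 = y_1 + 1`, near which there are
exceptional tuples.
-/

set_option autoImplicit false

open Height
open scoped ENNReal

namespace Pool.Agent.Results.MP_f58a57_nt.NearEveryPoint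

/-- the normalised Eisenstein series of weight `4` -/
noncomputable def E4 (τ : ℂ) : ℂ :=
  1 + 240 * ∑' m : ℕ, ((ArithmeticFunction.sigma 3 (m + 1) : ℕ) : ℂ) *
    Complex.exp (2 * (Real.pi : ℂ) * Complex.I * τ) ^ (m + 1)

/-- the normalised Eisenstein series of weight `6` -/
noncomputable def E6 (τ : ℂ) : ℂ :=
  1 - 504 * ∑' m : ℕ, ((ArithmeticFunction.sigma 5 (m + 1) : ℕ) : ℂ) *
    Complex.exp (2 * (Real.pi : ℂ) * Complex.I * τ) ^ (m + 1)

/-- the modular invariant `j = q⁻¹ + 744 + 196884 q + ⋯` -/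
noncomputable def j (τ : ℂ) : ℂ := 1728 * E4 τ ^ 3 / (E4 τ ^ 3 - E6 τ ^ 2)

/-- `exp (-2πi z), j (z), j' (z), j'' (z)` (complex derivatives) -/
noncomputable def jet (z : ℂ) : Fin 4 → ℂ :=
  ![Complex.exp (-(2 * (Real.pi : ℂ) * Complex.I * z)), j z, deriv j z, deriv (deriv j) z]

/-- the `4 p n + 1` numbers: `π`, and `exp (-2πi z), j (z), j' (z), j'' (z)` at the points `z = s_i z_l` -/
noncomputable def numbers {p n : ℕ} (s : Fin p → ℝ) (z : Fin n → ℂ) (i : Option (Fin n × (Fin p × Fin 4))) : ℂ :=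
  i.elim (Real.pi : ℂ) fun q => jet ((s q.2.1 : ℂ) * z q.1) q.2.2

/-- every nonzero polynomial in `4 p n + 1` variables with coefficients in `K` of height at most `T ^ A`, of degree at
most `d` in each variable, takes at the `4 p n + 1` numbers of the tuple `z` a value of absolute value greater than
`T ^ (-B)` -/
def NoRelation {n p : ℕ} (s : Fin p → ℝ) {K : IntermediateField ℚ ℂ} [NumberField K] (d : ℕ) (A B T : ℝ)
    (z : Fin n → K) : Prop :=
  ∀ P : MvPolynomial (Option (Fin n × (Fin p × Fin 4))) K, P ≠ 0 → (∀ i, P.degreeOf i ≤ d) →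
    (∀ e, mulHeight₁ (P.coeff e) ≤ T ^ A) →
      T ^ (-B) < ‖MvPolynomial.eval₂ (algebraMap K ℂ) (numbers s fun l => (z l : ℂ)) P‖

/-- fixed `s` -/
theorem one (n : ℕ) (hn : 1 ≤ n) (p : ℕ) (s : Fin p → ℝ) (hs0 : ∀ i, 0 < s i)
    (hs : ∀ c : Fin p → ℤ, ∑ i, (c i : ℝ) * s i = 0 → c = 0) :
    ∃ E : Set (Fin n → ℂ), dimH E ≤ ((2 * (n - 1) : ℕ) : ℝ≥0∞) ∧ ∀ y ∉ E, (∀ l, 0 < (y l).im) →
      ∀ (K : IntermediateField ℚ ℂ) [NumberField K] (d : ℕ) (A w : ℝ), 0 < w → ∃ B T₀ : ℝ, ∀ T ≥ T₀,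
        ∀ z : Fin n → K, (∀ l, mulHeight₁ (z l) ≤ T ∧ ‖(z l : ℂ) - y l‖ ≤ T ^ (-w)) → NoRelation s d A B T z := by
  have hnn : Nonempty (Fin n) := ⟨⟨0, hn⟩⟩
  obtain ⟨E, hE1, hE2⟩ := Pool.Agent.Helper264.NT.mainC (X := Fin n) (κ := Fin p × Fin 4)
    (fun _ => Pool.Agent.Y771.KF.fP s) (fun _ => {z : ℂ | 0 < z.im})
    (fun _ => isOpen_lt continuous_const Complex.continuous_im) (fun _ => Pool.Agent.Y771.KF.preconn_H)
    (fun _ => Pool.Agent.Y771.KF.fP_an s hs0) (fun _ => Pool.Agent.Y771.KF.fP_ind s hs0 hs)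
  refine ⟨E, by simpa using hE1, fun y hy hy0 K _ d A w hw => ?_⟩
  obtain ⟨B, T0, h⟩ := hE2 y hy hy0 K d A w hw
  refine ⟨B, T0, fun T hT z hz P hP hd hc => ?_⟩
  have h1 := (h T hT z hz).2 P hP hd hc
  have h2 : (fun o : Option (Fin n × (Fin p × Fin 4)) => o.elim (Real.pi : ℂ)
      fun c => Pool.Agent.Y771.KF.fP s c.2 (z c.1 : ℂ)) = numbers s fun l => (z l : ℂ) := by
    funext o
    cases o <;> rfl
  rw [← h2]
  exact h1

/-- Let `n ≥ 1` and let `R` be a countable set of positive real numbers (for instance `{1}`, or the positive real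
algebraic numbers). There is a subset `E` of `ℂ ^ n` of Hausdorff dimension at most `2 (n - 1)` such that for all `n`-tuples
`y` of points of the upper half-plane outside of `E`, all `p` and all `s_1, …, s_p` in `R` which are linearly independent
over `ℚ` (for example `p = 1`, `s_1 = 1`), all number fields `K ⊂ ℂ`, all `d`, `A` and `w > 0` there are `B` and `T₀` such
that for all `T ≥ T₀` all `n`-tuples `z` of elements of `K` of height at most `T` with `|z_l - y_l| ≤ T ^ (-w)` have no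
relation. -/
theorem result (n : ℕ) (hn : 1 ≤ n) (R : Set ℝ) (hR : R.Countable) (hR0 : ∀ x ∈ R, 0 < x) :
    ∃ E : Set (Fin n → ℂ), dimH E ≤ ((2 * (n - 1) : ℕ) : ℝ≥0∞) ∧ ∀ y ∉ E, (∀ l, 0 < (y l).im) →
      ∀ (p : ℕ) (s : Fin p → ℝ), (∀ i, s i ∈ R) → (∀ c : Fin p → ℤ, ∑ i, (c i : ℝ) * s i = 0 → c = 0) →
      ∀ (K : IntermediateField ℚ ℂ) [NumberField K] (d : ℕ) (A w : ℝ), 0 < w → ∃ B T₀ : ℝ, ∀ T ≥ T₀,
        ∀ z : Fin n → K, (∀ l, mulHeight₁ (z l) ≤ T ∧ ‖(z l : ℂ) - y l‖ ≤ T ^ (-w)) → NoRelation s d A B T z := by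
  classical
  have hRc : Countable R := hR.to_subtype
  have hall : ∀ x : (Σ p : ℕ, Fin p → R), ∃ E : Set (Fin n → ℂ), dimH E ≤ ((2 * (n - 1) : ℕ) : ℝ≥0∞) ∧
      ((∀ c : Fin x.1 → ℤ, ∑ i, (c i : ℝ) * (x.2 i : ℝ) = 0 → c = 0) →
      ∀ y ∉ E, (∀ l, 0 < (y l).im) → ∀ (K : IntermediateField ℚ ℂ) [NumberField K] (d : ℕ) (A w : ℝ), 0 < w →
        ∃ B T₀ : ℝ, ∀ T ≥ T₀, ∀ z : Fin n → K,
        (∀ l, mulHeight₁ (z l) ≤ T ∧ ‖(z l : ℂ) - y l‖ ≤ T ^ (-w)) →
          NoRelation (fun i => (x.2 i : ℝ)) d A B T z) := by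
    intro x
    by_cases hx : ∀ c : Fin x.1 → ℤ, ∑ i, (c i : ℝ) * (x.2 i : ℝ) = 0 → c = 0
    · obtain ⟨E, hE1, hE2⟩ := one n hn x.1 (fun i => (x.2 i : ℝ)) (fun i => hR0 _ (x.2 i).2) hx
      exact ⟨E, hE1, fun _ => hE2⟩
    · refine ⟨∅, by simp, fun h1 => absurd h1 hx⟩
  choose E hE1 hE2 using hall
  refine ⟨⋃ x, E x, ?_, fun y hy hy0 p s hs hlin K _ d A w hw => ?_⟩
  · rw [dimH_iUnion]
    exact iSup_le hE1
  · exact hE2 ⟨p, fun i => ⟨s i, hs i⟩⟩ hlin y (fun h => hy (Set.mem_iUnion.2 ⟨_, h⟩)) hy0 K d A w hw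

end Pool.Agent.Results.MP_f58a57_nt.NearEveryPoint
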