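import Pool.Agent.Results.MP_f58a57_nt.DistinctWindows
import Pool.Agent.V11286.NE.Vol
import Pool.Agent.V11168.NX.Core

/-!
# The modular Schanuel conjecture with derivatives and special points for ALL tuples of distinct integral invariants in windows
# along sequences

Let `j` be the modular invariant and let `z_1, …, z_k` be points of the upper half-plane for which the `n_i = j(z_i)` are
distinct integers. The conjecture predicts in general that the `3 k` numbers `z_i`, `j'(z_i)`, `j''(z_i)` are algebraically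
independent, and that they stay independent if one adds the values `j'(τ_l)` at inequivalent special points. The starting file
`DistinctWindows` proves this in bounded degree for the integers of a short interval `[N, N + N^c]` outside a set of at most
`q + 2` unknown exceptional integers. Here there are no exceptional integers. Let `v_m ≥ 1` be a sequence with exponent of
convergence at most `τ`.

(1) For all `α ≠ 0` outside a set of Hausdorff dimension at most `(1 - c + τ) / (1 - θ)` and all large `m`, for **all** `k`-tuples of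
distinct integers `n_i` with `|n_i - α v_m| ≤ v_m ^ θ` and **all** `z_i` with `j(z_i) = n_i` every relation of degree at most `δ`
between the `3 k` numbers, with coefficients which are polynomials in `2 π i` and given complex numbers `w_1, …, w_q` over a
number field of degree at most `D` (of any height), is trivial.

(2) If the exponent of convergence is zero (for example `v_m = 2 ^ m`) and `W` is a countable set of complex numbers (for example
the set of the values of `j'` at all special points), then almost every real `α` works for all `q`, `k`, `D`, `δ` and all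
`w_1, …, w_q ∈ W` at the same time.

Proof: the theorem `DistinctWindows`, and covering arguments (`Pool.Agent.V11168.NX.nx`, which uses the metric theorem
`Pool.Agent.Y854.GM.windowsV` of the starting library and generalises `no_exc` of helper286).
-/

set_option autoImplicit false

open MeasureTheory Filter

namespace Pool.Agent.Results.MP_f58a57_nt.SequencesWithoutExceptions

/-- the normalised Eisenstein series of weight `4` -/
noncomputable def E4 (τ : ℂ) : ℂ :=
  1 + 240 * ∑' m : ℕ, ((ArithmeticFunction.sigma 3 (m + 1) : ℕ) : ℂ) *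
    Complex.exp (2 * (Real.pi : ℂ) * Complex.I * ((m : ℂ) + 1) * τ)

/-- the normalised Eisenstein series of weight `6` -/
noncomputable def E6 (τ : ℂ) : ℂ :=
  1 - 504 * ∑' m : ℕ, ((ArithmeticFunction.sigma 5 (m + 1) : ℕ) : ℂ) *
    Complex.exp (2 * (Real.pi : ℂ) * Complex.I * ((m : ℂ) + 1) * τ)

/-- the modular invariant `j = q⁻¹ + 744 + 196884 q + ⋯` -/
noncomputable def J (τ : ℂ) : ℂ := 1728 * E4 τ ^ 3 / (E4 τ ^ 3 - E6 τ ^ 2)

/-- the numbers `z`, `j'(z)`, `j''(z)` -/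
noncomputable def numbers (z : ℂ) : Fin 3 → ℂ := ![z, deriv J z, deriv (deriv J) z]

/-- The numbers `2 π i, w_1, …, w_q` and `numbers (z_1), …, numbers (z_k)`. -/
noncomputable def values {q k : ℕ} (w : Fin q → ℂ) (z : Fin k → ℂ) : Option (Fin q) ⊕ Fin k × Fin 3 → ℂ :=
  Sum.elim (fun o => o.elim (2 * Real.pi * Complex.I) w) fun v => numbers (z v.1) v.2

/-- The numbers `2 π i, w_1, …, w_q` and `3 k` variables. -/
noncomputable def generic {q k : ℕ} (w : Fin q → ℂ) :
    Option (Fin q) ⊕ Fin k × Fin 3 → MvPolynomial (Fin k × Fin 3) ℂ :=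
  Sum.elim (fun o => MvPolynomial.C (o.elim (2 * Real.pi * Complex.I) w)) MvPolynomial.X

/-- Every polynomial of degree at most `δ` over a number field of degree at most `D` which vanishes at `2 π i, w_1, …, w_q` and
the `3 k` numbers of the `z_i` is zero after the substitution of `2 π i, w_1, …, w_q` only. -/
def Free (D δ : ℕ) {q k : ℕ} (w : Fin q → ℂ) (z : Fin k → ℂ) : Prop :=
  ∀ K : IntermediateField ℚ ℂ, FiniteDimensional ℚ K → Module.finrank ℚ K ≤ D →
    ∀ P : MvPolynomial (Option (Fin q) ⊕ Fin k × Fin 3) K, P.totalDegree ≤ δ →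
      MvPolynomial.aeval (values w z) P = 0 → MvPolynomial.aeval (generic (k := k) w) P = 0

/-- The exponent of convergence of the sequence `v` is at most `τ`. -/
def ConvergenceExponentLe (v : ℕ → ℝ) (τ : ℝ) : Prop := ∀ s : ℝ, τ < s → Summable (fun n : ℕ => (v n) ^ (-s))

/-- the integers of absolute value at most `T`, as complex numbers -/
def ints (T : ℝ) : Set ℂ := {a | ∃ n : ℤ, a = n ∧ |(n : ℝ)| ≤ T}

/-- for the points with integral invariants `n_i = ε a_i` -/
def Good (D δ : ℕ) {q k : ℕ} (w : Fin q → ℂ) (ε : ℤ) (a : Fin k → ℂ) : Prop :=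
  ∀ n : Fin k → ℤ, (∀ i, ((n i : ℤ) : ℂ) = ε * a i) → ∀ z : Fin k → ℂ, (∀ i, 0 < (z i).im ∧ J (z i) = n i) → Free D δ w z

lemma pow_ineq (E H N : ℕ) (h : (H + 2) ^ (2 * E + 1) ≤ N) : H ≤ N ∧ (2 * H + 2) ^ E ≤ N - H := by
  have h1 : (2 * H + 2) ^ E ≤ (H + 2) ^ (2 * E) := by
    rw [pow_mul]
    exact Nat.pow_le_pow_left (by nlinarith) _
  have h2 : (H + 2) ^ (2 * E) + H ≤ (H + 2) ^ (2 * E + 1) := by
    rw [pow_succ]
    have h3 : 1 ≤ (H + 2) ^ (2 * E) := Nat.one_le_pow _ _ (by omega)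
    nlinarith
  omega

lemma signed (q k D δ : ℕ) : ∃ c : ℝ, 0 < c ∧ c < 1 ∧ ∀ (w : Fin q → ℂ) (ε : ℤ), ε = 1 ∨ ε = -1 →
    ∀ (v : ℕ → ℝ) (τ θ : ℝ), (∀ n, 1 ≤ v n) → 0 ≤ τ → ConvergenceExponentLe v τ → 0 ≤ θ → θ ≤ c →
      ∃ X : Set ℝ, dimH X ≤ ENNReal.ofReal ((1 - c + τ) / (1 - θ)) ∧ ∀ α : ℝ, 0 < α → α ∉ X →
        ∃ m₀ : ℕ, ∀ m : ℕ, m₀ ≤ m → ∀ n : Fin k → ℤ, Function.Injective n → (∀ i, |(n i : ℝ) - α * v m| ≤ (v m) ^ θ) →
          Good D δ w ε fun i => (n i : ℂ) := by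
  obtain ⟨E, hE⟩ := Pool.Agent.Results.MP_f58a57_nt.DistinctWindows.result q k D δ
  have hE0 : (0 : ℝ) ≤ E := Nat.cast_nonneg E
  refine ⟨1 / (2 * (2 * E + 1)), by positivity, by
    rw [div_lt_one (by positivity)]
    linarith, fun w ε hε v τ θ hv hτ hvτ hθ0 hθ => ?_⟩
  obtain ⟨X, hX, hX2⟩ := Pool.Agent.V11168.NX.nx (k := k) ints 1 (2 * E + 1) (q + 2) 0 le_rfl (by omega)
    (by
      rintro S T hST a ⟨n, h1, h2⟩
      exact ⟨n, h1, h2.trans hST⟩)
    (by
      rintro T hT _ ⟨n, rfl, h2⟩ a ha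
      refine ⟨n + a, by push_cast; ring, ?_⟩
      push_cast
      rw [pow_one]
      have := abs_add_le (n : ℝ) (a : ℝ)
      linarith)
    (by
      rintro T hT _ ⟨n, rfl, h2⟩
      rw [Complex.norm_intCast]
      linarith)
    (Good D δ w ε) (by
      intro H N _ hHN
      obtain ⟨hHN1, hHN2⟩ := pow_ineq E H N hHN
      obtain ⟨S, hS, hS2⟩ := hE (N - H) (2 * H) hHN2 w ε hε
      classical
      refine ⟨S.image fun n : ℤ => ((ε * n - N : ℤ) : ℂ), Finset.card_image_le.trans hS, fun β hβ hβS hβA n hn z hz => ?_⟩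
      choose b hb1 hb2 using hβA
      have hεε : ε * ε = 1 := by rcases hε with h | h <;> rw [h] <;> norm_num
      have hnb : ∀ i, n i = ε * (N + b i) := by
        intro i
        have h1 : ((n i : ℤ) : ℂ) = ε * ((N : ℂ) + β i) := hn i
        rw [hb1 i] at h1
        have h2 : ((n i : ℤ) : ℂ) = ((ε * (N + b i) : ℤ) : ℂ) := by
          rw [h1]
          push_cast
          ring
        exact_mod_cast h2
      have hεn : ∀ i, ε * n i = N + b i := by
        intro i
        rw [hnb i, ← mul_assoc, hεε, one_mul]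
      have hbH : ∀ i, |b i| ≤ H := fun i => by exact_mod_cast hb2 i
      exact hS2 n (fun i i' hii => hβ (by
        have h1 := hεn i
        have h2 := hεn i'
        rw [hii] at h1
        have h3 : b i = b i' := by linarith
        rw [hb1 i, hb1 i', h3])) (fun i => by
          have h1 := abs_le.1 (hbH i)
          refine ⟨?_, ?_, fun hS3 => hβS i ?_⟩
          · rw [hεn i]
            omega
          · rw [hεn i]
            omega
          · rw [Finset.mem_image]
            refine ⟨n i, hS3, ?_⟩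
            rw [hεn i, hb1 i]
            congr 1
            ring) z hz)
    (b := 1 / (2 * (2 * E + 1))) (by positivity) (by
      push_cast
      rw [one_mul, one_div, inv_mul_cancel₀ (by positivity)])
    hv hτ hvτ hθ0 hθ
  refine ⟨X, hX, fun α hα hαX => ?_⟩
  obtain ⟨m₀, hm₀⟩ := hX2 α hα hαX
  refine ⟨m₀, fun m hm n hn hnα => ?_⟩
  have h1 := hm₀ m hm n (fun _ => 0) hnα (fun _ => ⟨0, by simp, by
    simpa using Real.rpow_nonneg (zero_le_one.trans (hv m)) θ⟩) (by
      intro i i' hii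
      apply hn
      simpa using hii)
  simpa using h1

/-- **Theorem.**
(1) For all `q`, `k`, `D`, `δ` there is `c` with `0 < c < 1` such that for all `w_1, …, w_q`, all sequences `v_m ≥ 1` with exponent of
convergence at most `τ` and all `0 ≤ θ ≤ c` the following holds for all `α ≠ 0` outside a set of Hausdorff dimension at most
`(1 - c + τ) / (1 - θ)`: for all large `m`, all distinct integers `n_1, …, n_k` with `|n_i - α v_m| ≤ v_m ^ θ` and all points `z_i` of
the upper half-plane with `j(z_i) = n_i` the `3 k` numbers `z_i`, `j'(z_i)`, `j''(z_i)` are `Free D δ w`.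
(2) For every sequence `v_m ≥ 1` with exponent of convergence zero, every countable set `W` of complex numbers and almost every
real `α` the following holds. For all `q`, `k`, `D`, `δ` and all `w_1, …, w_q ∈ W` there is `θ > 0` such that for all large `m`, all
distinct integers `n_1, …, n_k` with `|n_i - α v_m| ≤ v_m ^ θ` and all `z_i` with `j(z_i) = n_i` the numbers are `Free D δ w`.
(3) For example `v_m = 2 ^ m`. -/
theorem result :
    (∀ q k D δ : ℕ, ∃ c : ℝ, 0 < c ∧ c < 1 ∧ ∀ (w : Fin q → ℂ) (v : ℕ → ℝ) (τ θ : ℝ), (∀ m, 1 ≤ v m) → 0 ≤ τ →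
      ConvergenceExponentLe v τ → 0 ≤ θ → θ ≤ c →
      ∃ X : Set ℝ, dimH X ≤ ENNReal.ofReal ((1 - c + τ) / (1 - θ)) ∧ ∀ α : ℝ, α ≠ 0 → α ∉ X →
        ∃ m₀ : ℕ, ∀ m : ℕ, m₀ ≤ m → ∀ n : Fin k → ℤ, Function.Injective n → (∀ i, |(n i : ℝ) - α * v m| ≤ (v m) ^ θ) →
          ∀ z : Fin k → ℂ, (∀ i, 0 < (z i).im ∧ J (z i) = n i) → Free D δ w z) ∧
    (∀ v : ℕ → ℝ, (∀ m, 1 ≤ v m) → ConvergenceExponentLe v 0 → ∀ W : Set ℂ, W.Countable → ∀ᵐ α : ℝ,
      ∀ (q k D δ : ℕ) (w : Fin q → ℂ), (∀ l, w l ∈ W) → ∃ θ : ℝ, 0 < θ ∧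
        ∃ m₀ : ℕ, ∀ m : ℕ, m₀ ≤ m → ∀ n : Fin k → ℤ, Function.Injective n → (∀ i, |(n i : ℝ) - α * v m| ≤ (v m) ^ θ) →
          ∀ z : Fin k → ℂ, (∀ i, 0 < (z i).im ∧ J (z i) = n i) → Free D δ w z) ∧
    ConvergenceExponentLe (fun m : ℕ => (2 : ℝ) ^ m) 0 := by
  have h1 : ∀ q k D δ : ℕ, ∃ c : ℝ, 0 < c ∧ c < 1 ∧ ∀ (w : Fin q → ℂ) (v : ℕ → ℝ) (τ θ : ℝ), (∀ m, 1 ≤ v m) → 0 ≤ τ →
      ConvergenceExponentLe v τ → 0 ≤ θ → θ ≤ c →
      ∃ X : Set ℝ, dimH X ≤ ENNReal.ofReal ((1 - c + τ) / (1 - θ)) ∧ ∀ α : ℝ, α ≠ 0 → α ∉ X →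
        ∃ m₀ : ℕ, ∀ m : ℕ, m₀ ≤ m → ∀ n : Fin k → ℤ, Function.Injective n → (∀ i, |(n i : ℝ) - α * v m| ≤ (v m) ^ θ) →
          ∀ z : Fin k → ℂ, (∀ i, 0 < (z i).im ∧ J (z i) = n i) → Free D δ w z := by
    intro q k D δ
    obtain ⟨c, hc0, hc1, h⟩ := signed q k D δ
    refine ⟨c, hc0, hc1, fun w v τ θ hv hτ hvτ hθ0 hθ => ?_⟩
    obtain ⟨X₁, hX₁, h₁⟩ := h w 1 (Or.inl rfl) v τ θ hv hτ hvτ hθ0 hθ
    obtain ⟨X₂, hX₂, h₂⟩ := h w (-1) (Or.inr rfl) v τ θ hv hτ hvτ hθ0 hθ
    refine ⟨X₁ ∪ (fun x : ℝ => -x) '' X₂, ?_, fun α hα hαX => ?_⟩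
    · rw [dimH_union, max_le_iff]
      refine ⟨hX₁, ?_⟩
      have h3 : dimH ((fun x : ℝ => -x) '' X₂) = dimH X₂ := Isometry.dimH_image (fun x y => by
        rw [edist_neg_neg]) X₂
      rw [h3]
      exact hX₂
    · rw [Set.mem_union, not_or] at hαX
      rcases lt_or_gt_of_ne hα with hneg | hpos
      · obtain ⟨m₀, hm₀⟩ := h₂ (-α) (by linarith) (fun h4 => hαX.2 ⟨-α, h4, by simp⟩)
        refine ⟨m₀, fun m hm n hn hnα z hz => ?_⟩
        refine hm₀ m hm (fun i => -n i) (fun i i' hii => hn (by simpa using hii)) (fun i => ?_) n (fun i => by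
          push_cast
          ring) z hz
        have h5 := hnα i
        push_cast
        rw [← abs_neg]
        have h6 : -(-(n i : ℝ) - -α * v m) = (n i : ℝ) - α * v m := by ring
        rwa [h6]
      · obtain ⟨m₀, hm₀⟩ := h₁ α hpos hαX.1
        exact ⟨m₀, fun m hm n hn hnα z hz => hm₀ m hm n hn hnα n (fun i => by push_cast; ring) z hz⟩
  refine ⟨h1, fun v hv hv0 W hW => ?_, Pool.Agent.V11286.NE.expLe_two⟩
  have h2 : ∀ (q k D δ : ℕ), ∀ᵐ α : ℝ, ∀ w ∈ {w : Fin q → ℂ | ∀ l, w l ∈ W}, ∃ θ : ℝ, 0 < θ ∧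
        ∃ m₀ : ℕ, ∀ m : ℕ, m₀ ≤ m → ∀ n : Fin k → ℤ, Function.Injective n → (∀ i, |(n i : ℝ) - α * v m| ≤ (v m) ^ θ) →
          ∀ z : Fin k → ℂ, (∀ i, 0 < (z i).im ∧ J (z i) = n i) → Free D δ w z := by
    intro q k D δ
    obtain ⟨c, hc0, hc1, h⟩ := h1 q k D δ
    have hcount : {w : Fin q → ℂ | ∀ l, w l ∈ W}.Countable := Set.countable_pi fun _ => hW
    rw [ae_ball_iff hcount]
    intro w _
    obtain ⟨X, hX, hX2⟩ := h w v 0 (c / 2) hv le_rfl hv0 (by linarith) (by linarith)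
    have hX0 : volume X = 0 := Pool.Agent.V11286.NE.vol_zero (Pool.Agent.V11286.NE.ratio_lt hc0 hc1) hX
    have hae : ∀ᵐ α : ℝ, α ∉ X := measure_eq_zero_iff_ae_notMem.1 hX0
    have hae0 : ∀ᵐ α : ℝ, α ≠ 0 := by
      rw [ae_iff]
      simp
    filter_upwards [hae, hae0] with α hα hα0
    exact ⟨c / 2, by positivity, hX2 α hα0 hα⟩
  simp only [← ae_all_iff] at h2
  have h3 : ∀ᵐ α : ℝ, ∀ (q k D δ : ℕ), ∀ w ∈ {w : Fin q → ℂ | ∀ l, w l ∈ W}, ∃ θ : ℝ, 0 < θ ∧
        ∃ m₀ : ℕ, ∀ m : ℕ, m₀ ≤ m → ∀ n : Fin k → ℤ, Function.Injective n → (∀ i, |(n i : ℝ) - α * v m| ≤ (v m) ^ θ) →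
          ∀ z : Fin k → ℂ, (∀ i, 0 < (z i).im ∧ J (z i) = n i) → Free D δ w z := h2
  filter_upwards [h3] with α hα q k D δ w hw
  exact hα q k D δ w hw

end Pool.Agent.Results.MP_f58a57_nt.SequencesWithoutExceptions
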