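import Pool.Agent.Results.MP_f58a57_nt.AlgebraicInvariants
import Pool.Agent.V11168.NX.AI

/-!
# The modular Schanuel conjecture with derivatives and special points for ALL algebraic invariants near almost all dilated polynomials

Let `j` be the modular invariant and let `z_1, …, z_k` be points of the upper half-plane for which `α_i = j(z_i)` are algebraic
integers. The conjecture predicts `3 m_1 + m_2` independent numbers among `j'(τ_l)` (`τ_l` special) and `z_i`, `j'(z_i)`,
`j''(z_i)`. The starting file `AlgebraicInvariants` proves it for relations of bounded degree over number fields of bounded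
degree, with coefficients of any height, for all `k`-tuples of algebraic integers `α_i` of degree at most `m` and size at most
`T` but a proportion `C T^(-c)`; the exceptional tuples are not known.

Here we prove a statement without exceptional tuples. The tuple `α` of algebraic integers of degree `m` is given by its minimal
polynomials, `k` monic integral polynomials of degree `m`; for a tuple `x` of `k` monic **real** polynomials `X^m + ∑ x_(i,j) X^j`
we consider the dilates `X^m + ∑ x_(i,j) V^(m-j) X^j` by `V = v_N`, and **all** tuples `α` whose minimal polynomials have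
coefficients at distance at most `V^θ` from the coefficients of the dilates. The theorem: if the exponent of convergence of
`v_N ≥ 1` is zero (for example `v_N = 2 ^ N`), then for almost all `x` and all large `N` **all** these tuples are good: for all
`z_i` with `j(z_i) = α_i` every relation of degree at most `δ` over a number field of degree at most `d` between `2 π i`, `w`
and the `3 k` numbers `z_i`, `j'(z_i)`, `j''(z_i)` is trivial. Here `θ > 0` depends on `k`, `m`, `q`, `d`, `δ` only, and `x`
works for all `q`, `d`, `δ` and all `w` with coordinates in a given countable set `W` at the same time; `W` may contain the values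
`j'(τ)` at all special points `τ`.

Proof: the counting theorem behind `AlgebraicInvariants` and the Borel–Cantelli lemma for boxes of sides `V^(θ - (m - j))`
(`Pool.Agent.V11168.NX.ae_ai`).
-/

set_option autoImplicit false

open MeasureTheory Filter

namespace Pool.Agent.Results.MP_f58a57_nt.WindowsOfAlgebraicInvariants

open Pool.Agent.Results.MP_f58a57_nt.AlgebraicInvariants

/-- The `α_i` are algebraic integers of degree `m`, and the coefficients of their minimal polynomials are at distance at most
`r` from the coefficients `x_(i,j) V^(m-j)` of the dilated polynomials `X^m + ∑ x_(i,j) V^(m-j) X^j`. -/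
def Near {k : ℕ} (m : ℕ) (x : Fin k × Fin m → ℝ) (V r : ℝ) (α : Fin k → ℂ) : Prop :=
  ∀ i, IsIntegral ℤ (α i) ∧ (minpoly ℤ (α i)).natDegree = m ∧
    ∀ j : Fin m, |((minpoly ℤ (α i)).coeff j : ℝ) - x (i, j) * V ^ (m - (j : ℕ))| ≤ r

/-- The exponent of convergence of the sequence `v` is at most `τ`. -/
def ConvergenceExponentLe (v : ℕ → ℝ) (τ : ℝ) : Prop := ∀ s : ℝ, τ < s → Summable (fun n : ℕ => (v n) ^ (-s))

/-- For all points `z_i` with `j(z_i) = α_i`: every polynomial of degree at most `δ` over a number field of degree at most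
`d` which vanishes at `2 π i, w_1, …, w_q` and the `3 k` numbers `z_i`, `j'(z_i)`, `j''(z_i)` is zero after the substitution of
`2 π i, w_1, …, w_q` only. -/
def OnlyTrivialRelations (δ d : ℕ) {q k : ℕ} (w : Fin q → ℂ) (α : Fin k → ℂ) : Prop :=
  ∀ z : Fin k → ℂ, (∀ i, 0 < (z i).im ∧ J (z i) = α i) →
    ∀ K : IntermediateField ℚ ℂ, FiniteDimensional ℚ K → Module.finrank ℚ K ≤ d →
    ∀ P : MvPolynomial (Option (Fin q) ⊕ Fin k × Fin 3) K, P.totalDegree ≤ δ →
      MvPolynomial.aeval (values w z) P = 0 → MvPolynomial.aeval (generic (k := k) w) P = 0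

lemma main (k m q d δ : ℕ) : ∃ θ : ℝ, 0 < θ ∧ ∀ v : ℕ → ℝ, (∀ N, 1 ≤ v N) → ConvergenceExponentLe v 0 →
    ∀ w : Fin q → ℂ, ∀ᵐ x : Fin k × Fin m → ℝ, ∃ N₀ : ℕ, ∀ N : ℕ, N₀ ≤ N →
      ∀ α : Fin k → ℂ, Near m x (v N) ((v N) ^ θ) α → OnlyTrivialRelations δ d w α := by
  obtain ⟨c, hc, C, hC, h⟩ := Pool.Agent.Y120.A.tupJ Pool.Agent.Y120.A.hvcj Pool.Agent.Y120.A.hirr q k m d δ
  obtain ⟨h1, h2, h3⟩ := Pool.Agent.V11168.NX.exp_ok hc (k * m)
  refine ⟨_, h1, fun v hv hv0 w => ?_⟩
  have hae := Pool.Agent.V11168.NX.ae_ai (k := k) (m := m) (fun α => Pool.Agent.Y120.A.ExcJ δ d w α) hC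
    (fun T hT => h w T hT) hv (fun s hs => hv0 s hs) h2 h3
  filter_upwards [hae] with x hx
  obtain ⟨N₀, hN₀⟩ := hx
  refine ⟨N₀, fun N hN α hα z hz K hK hKd P hP hP0 => ?_⟩
  by_contra hcon
  exact hN₀ N hN α hα (exc ⟨z, hz, K, hK, hKd, P, hP, hP0, hcon⟩)

/-- **Theorem.** For all `k`, `m` there are numbers `θ (q, d, δ) > 0` such that for every sequence `v_N ≥ 1` with exponent of
convergence zero, every countable set `W` of complex numbers and almost all `x ∈ ℝ^(k m)` (tuples of `k` monic real
polynomials of degree `m`) the following holds. For all `q`, `d`, `δ` and all `w ∈ W^q`, for all large `N` and all `k`-tuples `α`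
of algebraic integers of degree `m` whose minimal polynomials have coefficients at distance at most `v_N ^ θ (q, d, δ)` from the
coefficients `x_(i,j) v_N^(m-j)`, for all `z_i` with `j(z_i) = α_i`, all relations of degree at most `δ` over number fields of
degree at most `d` between `2 π i`, `w` and the `3 k` numbers `z_i`, `j'(z_i)`, `j''(z_i)` are trivial. -/
theorem result (k m : ℕ) : ∃ θ : ℕ → ℕ → ℕ → ℝ, (∀ q d δ, 0 < θ q d δ) ∧ ∀ v : ℕ → ℝ, (∀ N, 1 ≤ v N) →
    ConvergenceExponentLe v 0 → ∀ W : Set ℂ, W.Countable → ∀ᵐ x : Fin k × Fin m → ℝ,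
      ∀ (q d δ : ℕ) (w : Fin q → ℂ), (∀ l, w l ∈ W) → ∃ N₀ : ℕ, ∀ N : ℕ, N₀ ≤ N →
        ∀ α : Fin k → ℂ, Near m x (v N) ((v N) ^ θ q d δ) α → OnlyTrivialRelations δ d w α := by
  choose θ hθ hθ2 using main k m
  refine ⟨θ, hθ, fun v hv hv0 W hW => ?_⟩
  have h2 : ∀ (q d δ : ℕ), ∀ᵐ x : Fin k × Fin m → ℝ, ∀ w ∈ {w : Fin q → ℂ | ∀ l, w l ∈ W},
      ∃ N₀ : ℕ, ∀ N : ℕ, N₀ ≤ N → ∀ α : Fin k → ℂ, Near m x (v N) ((v N) ^ θ q d δ) α →
        OnlyTrivialRelations δ d w α := by
    intro q d δ
    rw [ae_ball_iff (Set.countable_pi fun _ : Fin q => hW)]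
    intro w _
    exact hθ2 q d δ v hv hv0 w
  simp only [← ae_all_iff] at h2
  filter_upwards [h2] with x hx q d δ w hw
  exact hx q d δ w hw

end Pool.Agent.Results.MP_f58a57_nt.WindowsOfAlgebraicInvariants
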